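import Mathlib
import Pool.Agent.R985.SEM2
open MvPolynomial Pool.Agent.R985.SEM

namespace Pool.Agent.Results.MP_0e1d24_pr.GenericIdentifiability

/-- A simple directed graph on `V`: the edge set `D = {(i,j) | Adj i j}` contains no loop and
never contains both `(i,j)` and `(j,i)`. Directed cycles are allowed. -/
@[ext] structure SimpleDigraph (V : Type) where
  Adj : V → V → Prop
  irrefl : ∀ i, ¬ Adj i i
  asymm : ∀ i j, Adj i j → ¬ Adj j i

/-- `G` is complete if any two distinct nodes are joined by an edge in one of the directions. -/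
def SimpleDigraph.Complete {V : Type} (G : SimpleDigraph V) : Prop :=
  ∀ i j, i ≠ j → G.Adj i j ∨ G.Adj j i

/-- The homoscedastic model
`M_G = {s (I - Λ) (I - Λ)ᵀ | Λ ∈ ℝ^D, I - Λ invertible, s > 0}`. -/
def model {V : Type} [Fintype V] [DecidableEq V] (G : SimpleDigraph V) : Set (Matrix V V ℝ) :=
  {K | ∃ (Λ : Matrix V V ℝ) (s : ℝ), (∀ i j, ¬ G.Adj i j → Λ i j = 0) ∧ IsUnit (1 - Λ) ∧ 0 < s ∧
    K = s • ((1 - Λ) * (1 - Λ).transpose)}

/-- A set of matrices as a set of points of the affine space `ℝ^(V × V)`. -/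
def coords {V : Type} (S : Set (Matrix V V ℝ)) : Set (V × V → ℝ) :=
  (fun K : Matrix V V ℝ => fun e : V × V => K e.1 e.2) '' S

/-- The dimension of (the Zariski closure of) a set `S` of matrices: the Krull dimension of the
ring of polynomial functions on `S`. For semialgebraic `S` this is the dimension of `S`. -/
noncomputable def dim {V : Type} (S : Set (Matrix V V ℝ)) : WithBot ℕ∞ :=
  ringKrullDim (MvPolynomial (V × V) ℝ ⧸ vanishingIdeal ℝ (coords S))

/-- The graph parameter of the family of models `M_G`, `G ∈ 𝒢`, is generically identifiable. -/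
def GenericallyIdentifiable {V : Type} [Fintype V] [DecidableEq V]
    (𝒢 : Set (SimpleDigraph V)) : Prop :=
  ∀ G₁ ∈ 𝒢, ∀ G₂ ∈ 𝒢, G₁ ≠ G₂ →
    dim (model G₁ ∩ model G₂) < max (dim (model G₁)) (dim (model G₂))

section

variable {V : Type} [Fintype V] [DecidableEq V] (G : SimpleDigraph V)

abbrev Par : Type := Option {e : V × V // G.Adj e.1 e.2}

noncomputable instance : Fintype (Par G) := Fintype.ofFinite _
noncomputable instance : DecidableEq (Par G) := Classical.decEq _

open Classical in
noncomputable def Lg : Matrix V V (MvPolynomial (Par G) ℝ) := fun i j =>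
  if i = j then X none else if h : G.Adj i j then X (some ⟨(i, j), h⟩) else 0

open Classical in
noncomputable def Lr (θ : Par G → ℝ) : Matrix V V ℝ := fun i j =>
  if i = j then θ none else if h : G.Adj i j then θ (some ⟨(i, j), h⟩) else 0

noncomputable def ff : V × V → MvPolynomial (Par G) ℝ := fun e => ∑ k, Lg G e.1 k * Lg G e.2 k

lemma eval_Lg (θ : Par G → ℝ) (i j : V) : eval θ (Lg G i j) = Lr G θ i j := by
  unfold Lg Lr
  split_ifs <;> simp

lemma dLg (θ v : Par G → ℝ) (i j : V) :
    ∑ b, eval θ (pderiv b (Lg G i j)) * v b = Lr G v i j := by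
  have hX : ∀ c : Par G, ∑ b, eval θ (pderiv b (X c)) * v b = v c := by
    intro c
    rw [Finset.sum_eq_single c]
    · simp
    · intro b _ hb
      rw [pderiv_X_of_ne hb.symm]; simp
    · simp
  unfold Lg Lr
  split_ifs
  · exact hX _
  · exact hX _
  · simp

lemma dff (θ v : Par G → ℝ) (e : V × V) :
    ∑ b, eval θ (pderiv b (ff G e)) * v b =
      ∑ k, (Lr G v e.1 k * Lr G θ e.2 k + Lr G θ e.1 k * Lr G v e.2 k) := by
  unfold ff
  simp only [map_sum, Derivation.leibniz, smul_eq_mul, map_add, map_mul, eval_Lg]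
  simp only [Finset.sum_mul]
  rw [Finset.sum_comm]
  refine Finset.sum_congr rfl fun k _ => ?_
  rw [← dLg G θ v e.1 k, ← dLg G θ v e.2 k, Finset.sum_mul, Finset.mul_sum,
    ← Finset.sum_add_distrib]
  refine Finset.sum_congr rfl fun b _ => ?_
  ring

lemma pt_ff (θ : Par G → ℝ) (e : V × V) :
    pt (ff G) θ e = (Lr G θ * (Lr G θ).transpose) e.1 e.2 := by
  unfold pt ff
  simp only [map_sum, map_mul, eval_Lg, Matrix.mul_apply, Matrix.transpose_apply]

lemma Lr_diag (θ : Par G → ℝ) (i : V) : Lr G θ i i = θ none := by simp [Lr]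

lemma Lr_adj (θ : Par G → ℝ) (i j : V) (h : G.Adj i j) : Lr G θ i j = θ (some ⟨(i, j), h⟩) := by
  have : i ≠ j := fun e => G.irrefl j (e ▸ h)
  simp [Lr, this, h]

lemma Lr_not (θ : Par G → ℝ) (i j : V) (hij : i ≠ j) (h : ¬ G.Adj i j) : Lr G θ i j = 0 := by
  simp [Lr, hij, h]

/-! ### the model in terms of the parametrisation -/

lemma mem_model (K : Matrix V V ℝ) :
    K ∈ model G ↔ ∃ θ : Par G → ℝ, 0 < θ none ∧ (Lr G θ).det ≠ 0 ∧
      K = Lr G θ * (Lr G θ).transpose := by
  constructor
  · rintro ⟨Λ, s, hΛ, hu, hs, rfl⟩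
    let θ : Par G → ℝ := fun b => match b with
      | none => √s
      | some e => - √s * Λ e.1.1 e.1.2
    have hL : Lr G θ = √s • (1 - Λ) := by
      ext i j
      by_cases hij : i = j
      · subst hij
        rw [Lr_diag]
        simp [θ, hΛ i i (G.irrefl i)]
      · by_cases h : G.Adj i j
        · rw [Lr_adj G θ i j h]
          simp [θ, Matrix.one_apply, hij]
        · rw [Lr_not G θ i j hij h]
          simp [Matrix.one_apply, hij, hΛ i j h]
    refine ⟨θ, Real.sqrt_pos.mpr hs, ?_, ?_⟩
    · rw [hL, Matrix.det_smul]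
      refine mul_ne_zero (pow_ne_zero _ (Real.sqrt_pos.mpr hs).ne') ?_
      exact ((Matrix.isUnit_iff_isUnit_det _).mp hu).ne_zero
    · rw [hL, Matrix.transpose_smul, Matrix.smul_mul, Matrix.mul_smul, smul_smul,
        Real.mul_self_sqrt hs.le]
  · rintro ⟨θ, ht, hd, rfl⟩
    refine ⟨1 - (θ none)⁻¹ • Lr G θ, θ none * θ none, ?_, ?_, mul_pos ht ht, ?_⟩
    · intro i j h
      by_cases hij : i = j
      · subst hij
        simp [Lr_diag, ht.ne']
      · simp [Lr_not G θ i j hij h, Matrix.one_apply, hij]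
    · rw [sub_sub_cancel, Matrix.isUnit_iff_isUnit_det, Matrix.det_smul]
      exact isUnit_iff_ne_zero.mpr (mul_ne_zero (pow_ne_zero _ (inv_ne_zero ht.ne')) hd)
    · rw [sub_sub_cancel, Matrix.transpose_smul, Matrix.smul_mul, Matrix.mul_smul, smul_smul,
        smul_smul]
      have : θ none * θ none * (θ none)⁻¹ * (θ none)⁻¹ = 1 := by
        field_simp
      rw [this, one_smul]

lemma Lr_neg (θ : Par G → ℝ) : Lr G (-θ) = - Lr G θ := by
  ext i j
  rw [Matrix.neg_apply]
  unfold Lr
  split_ifs <;> simp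

/-- identity parameter -/
noncomputable def θid : Par G → ℝ := fun b => if b = none then 1 else 0

lemma Lr_id : Lr G (θid G) = 1 := by
  ext i j
  unfold Lr θid
  split_ifs with h1 h2 h3 <;> simp_all [Matrix.one_apply]

lemma mem_vanishing (F : MvPolynomial (V × V) ℝ) :
    F ∈ vanishingIdeal ℝ (coords (model G)) ↔ aeval (ff G) F = 0 := by
  rw [mem_vanishingIdeal_iff]
  constructor
  · intro h
    have h1 : ∀ θ : Par G → ℝ, 0 < θ none → (Lr G θ).det ≠ 0 → eval θ (aeval (ff G) F) = 0 := by
      intro θ ht hd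
      rw [← eval_pt]
      have := h (pt (ff G) θ) ⟨Lr G θ * (Lr G θ).transpose, (mem_model G _).mpr ⟨θ, ht, hd, rfl⟩, by
        funext e; rw [pt_ff]⟩
      simpa using this
    have h2 : ∀ θ : Par G → ℝ, θ none ≠ 0 → (Lr G θ).det ≠ 0 → eval θ (aeval (ff G) F) = 0 := by
      intro θ ht hd
      rcases lt_or_gt_of_ne ht with ht | ht
      · have h3 := h1 (-θ) (by simpa using ht) (by
          rw [Lr_neg, Matrix.det_neg]
          exact mul_ne_zero (pow_ne_zero _ (by norm_num)) hd)
        rw [← eval_pt] at h3 ⊢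
        have : pt (ff G) (-θ) = pt (ff G) θ := by
          funext e
          rw [pt_ff, pt_ff, Lr_neg]
          simp
        rwa [this] at h3
      · exact h1 θ ht hd
    have h3 : aeval (ff G) F * (X none * (Lg G).det) = 0 := by
      apply MvPolynomial.funext
      intro θ
      rw [map_mul, map_mul, eval_X, map_zero]
      have h4 : eval θ (Lg G).det = (Lr G θ).det := by
        have h5 := RingHom.map_det (eval θ) (Lg G)
        rw [h5]
        congr 1
        ext i j
        simp [eval_Lg]
      rw [h4]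
      by_cases ht : θ none = 0
      · simp [ht]
      · by_cases hd : (Lr G θ).det = 0
        · simp [hd]
        · rw [h2 θ ht hd, zero_mul]
    rcases mul_eq_zero.mp h3 with h4 | h4
    · exact h4
    · exfalso
      have h5 := congrArg (eval (θid G)) h4
      rw [map_mul, eval_X, map_zero] at h5
      have h6 : eval (θid G) (Lg G).det = (Lr G (θid G)).det := by
        have h5 := RingHom.map_det (eval (θid G)) (Lg G)
        rw [h5]
        congr 1
        ext i j
        simp [eval_Lg]
      rw [h6, Lr_id] at h5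
      simp [θid] at h5
  · rintro h x ⟨K, hK, rfl⟩
    obtain ⟨θ, -, -, rfl⟩ := (mem_model G K).mp hK
    have h1 : (fun e : V × V => (Lr G θ * (Lr G θ).transpose) e.1 e.2) = pt (ff G) θ := by
      funext e; rw [pt_ff]
    have h2 : aeval (pt (ff G) θ) F = eval (pt (ff G) θ) F := by simp [aeval_eq_eval]
    change aeval (fun e : V × V => (Lr G θ * (Lr G θ).transpose) e.1 e.2) F = 0
    rw [h1, h2, eval_pt, h, map_zero]

lemma vanishing_prime : (vanishingIdeal ℝ (coords (model G))).IsPrime := by
  have : vanishingIdeal ℝ (coords (model G)) = RingHom.ker (aeval (R := ℝ) (ff G)) := by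
    ext F
    rw [mem_vanishing, RingHom.mem_ker]
  rw [this]
  exact RingHom.ker_isPrime _

/-! ### injectivity of the differential -/

lemma inj_id [Nonempty V] (v : Par G → ℝ)
    (h : ∀ e, ∑ b, eval (θid G) (pderiv b (ff G e)) * v b = 0) : v = 0 := by
  have h1 : ∀ j k, Lr G v j k + Lr G v k j = 0 := by
    intro j k
    have h2 := h (j, k)
    rw [dff, Lr_id] at h2
    simp only [Matrix.one_apply, Finset.sum_add_distrib, mul_ite, mul_one, mul_zero, ite_mul,
      one_mul, zero_mul, Finset.sum_ite_eq, Finset.mem_univ, if_true] at h2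
    exact h2
  funext b
  cases b with
  | none =>
    obtain ⟨i⟩ := (inferInstance : Nonempty V)
    have := h1 i i
    rw [Lr_diag] at this
    simpa using this
  | some e =>
    obtain ⟨⟨i, j⟩, hij⟩ := e
    have h2 := h1 i j
    have hne : j ≠ i := fun e => G.irrefl i (e ▸ hij)
    rw [Lr_adj G v i j hij, Lr_not G v j i hne (G.asymm i j hij), add_zero] at h2
    exact h2

/-- special parameter: only edges into `i` are present. -/
noncomputable def θsp (i : V) : Par G → ℝ := fun b => match b with
  | none => 1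
  | some e => if e.1.2 = i then 1 else 0

open Classical in
lemma Lr_sp (i j m : V) : Lr G (θsp G i) j m =
    (if j = m then 1 else 0) + (if G.Adj j i ∧ m = i then 1 else 0) := by
  by_cases hjm : j = m
  · subst hjm
    rw [Lr_diag]
    have : ¬ (G.Adj j i ∧ j = i) := fun ⟨h1, h2⟩ => G.irrefl i (h2 ▸ h1)
    simp [θsp, this]
  · by_cases h : G.Adj j m
    · rw [Lr_adj G _ j m h]
      by_cases hm : m = i
      · subst hm
        simp [θsp, hjm, h]
      · simp [θsp, hjm, hm]
    · rw [Lr_not G _ j m hjm h]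
      have : ¬ (G.Adj j i ∧ m = i) := fun ⟨h1, h2⟩ => h (h2 ▸ h1)
      simp [hjm, this]

open Classical in
lemma inj_sp (hG : ¬ G.Complete) (i : V) (v : Par G → ℝ)
    (h : ∀ j k, j ≠ i → k ≠ i → ∑ b, eval (θsp G i) (pderiv b (ff G (j, k))) * v b = 0)
    (hv : ∀ e : {e : V × V // G.Adj e.1 e.2}, e.1.1 = i → v (some e) = 0) : v = 0 := by
  have h1 : ∀ j k, j ≠ i → k ≠ i → Lr G v j k + (if G.Adj k i then Lr G v j i else 0) +
      (Lr G v k j + (if G.Adj j i then Lr G v k i else 0)) = 0 := by
    intro j k hj hk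
    have h2 := h j k hj hk
    rw [dff] at h2
    simp only [Lr_sp, mul_add, add_mul, mul_ite, mul_one, mul_zero, ite_mul,
      one_mul, zero_mul, Finset.sum_add_distrib, Finset.sum_ite_eq, Finset.mem_univ, if_true,
      ite_and] at h2
    have h3 : ∀ (P : Prop) [Decidable P] (g : V → ℝ),
        ∑ x, (if P then (if x = i then g x else 0) else 0) = if P then g i else 0 := by
      intro P _ g
      split_ifs <;> simp
    rw [h3, h3] at h2
    linarith
  have ht : v none = 0 := by
    by_cases hcase : ∃ j, j ≠ i ∧ ¬ G.Adj j i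
    · obtain ⟨j, hj, hji⟩ := hcase
      have h2 := h1 j j hj hj
      rw [Lr_diag] at h2
      simp [hji] at h2
      exact h2
    · push Not at hcase
      have hG' := hG
      unfold SimpleDigraph.Complete at hG'
      push Not at hG'
      obtain ⟨j, k, hjk, n1, n2⟩ := hG'
      have hj : j ≠ i := by
        rintro rfl
        exact n2 (hcase k hjk.symm)
      have hk : k ≠ i := by
        rintro rfl
        exact n1 (hcase j hj)
      have e1 := h1 j j hj hj
      have e2 := h1 k k hk hk
      have e3 := h1 j k hj hk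
      rw [Lr_diag] at e1 e2
      rw [Lr_not G v j k hjk n1, Lr_not G v k j hjk.symm n2] at e3
      simp [hcase j hj, hcase k hk] at e1 e2 e3
      linarith
  have hcol : ∀ j (hj : G.Adj j i), Lr G v j i = 0 := by
    intro j hj
    have hne : j ≠ i := fun e => G.irrefl i (e ▸ hj)
    have h2 := h1 j j hne hne
    rw [Lr_diag, ht] at h2
    simp [hj] at h2
    exact h2
  funext b
  cases b with
  | none => exact ht
  | some e =>
    obtain ⟨⟨a, c⟩, hac⟩ := e
    by_cases ha : a = i
    · exact hv _ ha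
    · by_cases hc : c = i
      · subst hc
        have h2 := hcol a hac
        rw [Lr_adj G v a c hac] at h2
        exact h2
      · have h2 := h1 a c ha hc
        have hne : c ≠ a := fun e => G.irrefl a (e ▸ hac)
        rw [Lr_adj G v a c hac, Lr_not G v c a hne (G.asymm a c hac)] at h2
        have e1 : (if G.Adj c i then Lr G v a i else 0) = 0 := by
          split_ifs with h3
          · by_cases h4 : G.Adj a i
            · exact hcol a h4
            · exact Lr_not G v a i ha h4
          · rfl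
        have e2 : (if G.Adj a i then Lr G v c i else 0) = 0 := by
          split_ifs with h3
          · by_cases h4 : G.Adj c i
            · exact hcol c h4
            · exact Lr_not G v c i hc h4
          · rfl
        rw [e1, e2] at h2
        simpa using h2

/-- the matrix of the differential restricted to the entries outside row and column `i`,
together with the coordinates of row `i`. -/
noncomputable def JJ (i : V) : Matrix ((V × V) ⊕ Par G) (Par G) (MvPolynomial (Par G) ℝ) :=
  fun a b => match a with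
  | Sum.inl e => if e.1 ≠ i ∧ e.2 ≠ i then pderiv b (ff G e) else 0
  | Sum.inr none => 0
  | Sum.inr (some e) => if e.1.1 = i ∧ b = some e then 1 else 0

lemma JJ_iff (i : V) (θ v : Par G → ℝ) : ((JJ G i).map (eval θ)).mulVec v = 0 ↔
    (∀ j k, j ≠ i → k ≠ i → ∑ b, eval θ (pderiv b (ff G (j, k))) * v b = 0) ∧
      (∀ e : {e : V × V // G.Adj e.1 e.2}, e.1.1 = i → v (some e) = 0) := by
  constructor
  · intro h
    refine ⟨fun j k hj hk => ?_, fun e he => ?_⟩
    · have := congrFun h (Sum.inl (j, k))
      simpa [Matrix.mulVec, dotProduct, JJ, hj, hk] using this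
    · have := congrFun h (Sum.inr (some e))
      simp only [Matrix.mulVec, dotProduct, JJ, Matrix.map_apply, he, true_and,
        apply_ite (eval θ), map_one, map_zero, ite_mul, one_mul, zero_mul, Finset.sum_ite_eq',
        Finset.mem_univ, if_true, Pi.zero_apply] at this
      exact this
  · rintro ⟨h1, h2⟩
    funext a
    rcases a with ⟨j, k⟩ | b
    · by_cases hjk : j ≠ i ∧ k ≠ i
      · simpa [Matrix.mulVec, dotProduct, JJ, hjk.1, hjk.2] using h1 j k hjk.1 hjk.2
      · simp only [Matrix.mulVec, dotProduct, JJ, Matrix.map_apply]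
        simp only [if_neg hjk, map_zero, zero_mul, Finset.sum_const_zero, Pi.zero_apply]
    · cases b with
      | none => simp [Matrix.mulVec, dotProduct, JJ]
      | some e =>
        by_cases he : e.1.1 = i
        · simp only [Matrix.mulVec, dotProduct, JJ, Matrix.map_apply, he, true_and,
            apply_ite (eval θ), map_one, map_zero, ite_mul, one_mul, zero_mul, Finset.sum_ite_eq',
            Finset.mem_univ, if_true, Pi.zero_apply]
          exact h2 e he
        · simp [Matrix.mulVec, dotProduct, JJ, he]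

lemma exists_good (hG : ¬ G.Complete) : ∃ c : MvPolynomial (V × V) ℝ, aeval (ff G) c ≠ 0 ∧
    ∀ θ : Par G → ℝ, eval θ (aeval (ff G) c) ≠ 0 →
      (∀ H, Tang (ff G) (pt (ff G) θ) H →
        ∃ v : Par G → ℝ, ∀ a, H a = ∑ b, eval θ (pderiv b (ff G a)) * v b) ∧
      (∀ i, ∀ v : Par G → ℝ,
        (∀ j k, j ≠ i → k ≠ i → ∑ b, eval θ (pderiv b (ff G (j, k))) * v b = 0) →
        (∀ e : {e : V × V // G.Adj e.1 e.2}, e.1.1 = i → v (some e) = 0) → v = 0) ∧
      (∀ e, θ (some e) ≠ 0) := by
  classical
  have hV : Nonempty V := by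
    by_contra hcon
    apply hG
    intro i
    exact absurd ⟨i⟩ hcon
  obtain ⟨M, hM⟩ := exists_M (ff G) (θid G) (inj_id G)
  obtain ⟨c₁, hc₁, hc₁'⟩ := factA (ff G) M hM
  have hgram : ∀ i : V, ∃ h : MvPolynomial (Par G) ℝ, h ≠ 0 ∧ ∀ θ, eval θ h ≠ 0 →
      ∀ v, ((JJ G i).map (eval θ)).mulVec v = 0 → v = 0 := by
    intro i
    refine gramPoly (JJ G i) (θsp G i) ?_
    intro v hv
    obtain ⟨h1, h2⟩ := (JJ_iff G i _ v).mp hv
    exact inj_sp G hG i v h1 h2
  choose h hh0 hh using hgram
  have hN : ∀ i : V, ∃ c : MvPolynomial (V × V) ℝ, aeval (ff G) c ≠ 0 ∧ h i ∣ aeval (ff G) c :=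
    fun i => lemmaN (ff G) M hM (h i) (hh0 i)
  choose c₂ hc₂ hc₂' using hN
  have hE : ∀ e : {e : V × V // G.Adj e.1 e.2}, ∃ c : MvPolynomial (V × V) ℝ,
      aeval (ff G) c ≠ 0 ∧ (X (some e) : MvPolynomial (Par G) ℝ) ∣ aeval (ff G) c :=
    fun e => lemmaN (ff G) M hM _ (X_ne_zero _)
  choose c₃ hc₃ hc₃' using hE
  have hfin : Fintype {e : V × V // G.Adj e.1 e.2} := Fintype.ofFinite _
  refine ⟨c₁ * (∏ i, c₂ i) * ∏ e, c₃ e, ?_, ?_⟩
  · rw [map_mul, map_mul, map_prod, map_prod]
    exact mul_ne_zero (mul_ne_zero hc₁ (Finset.prod_ne_zero_iff.mpr fun i _ => hc₂ i))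
      (Finset.prod_ne_zero_iff.mpr fun e _ => hc₃ e)
  · intro θ hθ
    rw [map_mul, map_mul, map_prod, map_prod, map_mul, map_mul, map_prod, map_prod] at hθ
    have k1 := left_ne_zero_of_mul (left_ne_zero_of_mul hθ)
    have k2 := fun i => Finset.prod_ne_zero_iff.mp
      (right_ne_zero_of_mul (left_ne_zero_of_mul hθ)) i (Finset.mem_univ i)
    have k3 := fun e => Finset.prod_ne_zero_iff.mp (right_ne_zero_of_mul hθ) e (Finset.mem_univ e)
    refine ⟨hc₁' θ k1, ?_, ?_⟩
    · intro i v h1 h2
      refine hh i θ ?_ v ((JJ_iff G i θ v).mpr ⟨h1, h2⟩)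
      intro h0
      obtain ⟨e, he⟩ := hc₂' i
      apply k2 i
      rw [he, map_mul, h0, zero_mul]
    · intro e h0
      obtain ⟨e', he⟩ := hc₃' e
      apply k3 e
      rw [he, map_mul, eval_X, h0, zero_mul]

/-- The rank one perturbations `e_i wᵀ + w e_iᵀ` tangent to the model at a good point. -/
lemma tang_iff (θ : Par G → ℝ)
    (h1 : ∀ H, Tang (ff G) (pt (ff G) θ) H →
        ∃ v : Par G → ℝ, ∀ a, H a = ∑ b, eval θ (pderiv b (ff G a)) * v b)
    (h2 : ∀ i, ∀ v : Par G → ℝ,
        (∀ j k, j ≠ i → k ≠ i → ∑ b, eval θ (pderiv b (ff G (j, k))) * v b = 0) →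
        (∀ e : {e : V × V // G.Adj e.1 e.2}, e.1.1 = i → v (some e) = 0) → v = 0)
    (i : V) (w : V → ℝ) :
    Tang (ff G) (pt (ff G) θ) (fun e => (if e.1 = i then w e.2 else 0) +
      (if e.2 = i then w e.1 else 0)) ↔
    ∃ u : V → ℝ, (∀ j, ¬ G.Adj i j → u j = 0) ∧ w = (Lr G θ).mulVec u := by
  classical
  constructor
  · intro hT
    obtain ⟨v, hv⟩ := h1 _ hT
    simp only [dff] at hv
    -- the rows other than `i` vanish
    let v' : Par G → ℝ := fun b => match b with
      | none => v none
      | some e => if e.1.1 = i then 0 else v (some e)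
    have hv'row : ∀ j m, j ≠ i → Lr G v' j m = Lr G v j m := by
      intro j m hj
      by_cases hjm : j = m
      · subst hjm; rw [Lr_diag, Lr_diag]
      · by_cases h : G.Adj j m
        · rw [Lr_adj G v' j m h, Lr_adj G v j m h]
          simp [v', hj]
        · rw [Lr_not G v' j m hjm h, Lr_not G v j m hjm h]
    have hv'0 : v' = 0 := by
      apply h2 i
      · intro j k hj hk
        rw [dff]
        have := hv (j, k)
        simp only [hj, hk, if_false, add_zero] at this
        rw [this]
        refine Finset.sum_congr rfl fun m _ => ?_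
        rw [hv'row j m hj, hv'row k m hk]
      · intro e he
        simp [v', he]
    have hrow : ∀ j m, j ≠ i → Lr G v j m = 0 := by
      intro j m hj
      rw [← hv'row j m hj, hv'0]
      unfold Lr
      split_ifs <;> simp
    have hnone : v none = 0 := congrFun hv'0 none
    refine ⟨fun m => Lr G v i m, ?_, ?_⟩
    · intro j hj
      by_cases hij : i = j
      · subst hij
        change Lr G v i i = 0
        rw [Lr_diag, hnone]
      · exact Lr_not G v i j hij hj
    · funext j
      by_cases hj : j = i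
      · subst hj
        have := hv (j, j)
        simp only [if_true] at this
        rw [Finset.sum_add_distrib] at this
        simp only [Matrix.mulVec, dotProduct]
        have e1 : ∑ x, Lr G v j x * Lr G θ j x = ∑ x, Lr G θ j x * Lr G v j x :=
          Finset.sum_congr rfl fun _ _ => mul_comm _ _
        rw [e1] at this
        linarith
      · have := hv (i, j)
        simp only [if_true, hj, if_false, add_zero] at this
        rw [this]
        simp only [Matrix.mulVec, dotProduct]
        refine Finset.sum_congr rfl fun m _ => ?_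
        rw [hrow j m hj, mul_zero, add_zero, mul_comm]
  · rintro ⟨u, hu, rfl⟩
    let v : Par G → ℝ := fun b => match b with
      | none => 0
      | some e => if e.1.1 = i then u e.1.2 else 0
    have hLv : ∀ j m, Lr G v j m = if j = i then u m else 0 := by
      intro j m
      by_cases hjm : j = m
      · subst hjm
        rw [Lr_diag]
        by_cases hj : j = i
        · subst hj; simp [v, hu j (G.irrefl j)]
        · simp [v, hj]
      · by_cases h : G.Adj j m
        · rw [Lr_adj G v j m h]
        · rw [Lr_not G v j m hjm h]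
          by_cases hj : j = i
          · subst hj; simp [hu m h]
          · simp [hj]
    have := tang_of_jac (ff G) θ v
    convert this using 1
    funext e
    rw [dff]
    simp only [hLv, Finset.sum_add_distrib, Matrix.mulVec, dotProduct, ite_mul, zero_mul, mul_ite,
      mul_zero]
    congr 1
    · split_ifs
      · exact Finset.sum_congr rfl fun _ _ => mul_comm _ _
      · simp
    · split_ifs
      · rfl
      · simp

end

/-- **Main step**: two non-complete simple directed graphs whose models have a common generic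
point of a common Zariski closure are equal. -/
lemma eq_of_good {V : Type} [Fintype V] [DecidableEq V] (G₁ G₂ : SimpleDigraph V)
    (hG₁ : ¬ G₁.Complete) (hG₂ : ¬ G₂.Complete)
    (e₁ : vanishingIdeal ℝ (coords (model G₁)) =
      vanishingIdeal ℝ (coords (model G₁) ∩ coords (model G₂)))
    (e₂ : vanishingIdeal ℝ (coords (model G₂)) =
      vanishingIdeal ℝ (coords (model G₁) ∩ coords (model G₂))) : G₁ = G₂ := by
  classical
  obtain ⟨c₁, hc₁, hc₁'⟩ := exists_good G₁ hG₁
  obtain ⟨c₂, hc₂, hc₂'⟩ := exists_good G₂ hG₂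
  have hker : ∀ F : MvPolynomial (V × V) ℝ, aeval (ff G₁) F = 0 ↔ aeval (ff G₂) F = 0 := by
    intro F
    rw [← mem_vanishing, ← mem_vanishing, e₁, e₂]
  -- a common generic point
  obtain ⟨x, ⟨hx1, hx2⟩, hx⟩ : ∃ x, x ∈ coords (model G₁) ∩ coords (model G₂) ∧
      eval x (c₁ * c₂) ≠ 0 := by
    by_contra hcon
    push Not at hcon
    have h3 : c₁ * c₂ ∈ vanishingIdeal ℝ (coords (model G₁)) := by
      rw [e₁, mem_vanishingIdeal_iff]
      intro x hx
      have := hcon x hx
      simpa [aeval_eq_eval] using this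
    rw [mem_vanishing, map_mul] at h3
    rcases mul_eq_zero.mp h3 with h4 | h4
    · exact hc₁ h4
    · exact hc₂ ((hker c₂).mp h4)
  obtain ⟨K, hK1, rfl⟩ := hx1
  obtain ⟨K', hK2, hKK⟩ := hx2
  have hKK' : K' = K := by
    ext i j
    exact congrFun hKK (i, j)
  subst hKK'
  obtain ⟨θ₁, ht1, hd1, hKθ1⟩ := (mem_model G₁ K').mp hK1
  obtain ⟨θ₂, ht2, hd2, hKθ2⟩ := (mem_model G₂ K').mp hK2
  have hp1 : (fun e : V × V => K' e.1 e.2) = pt (ff G₁) θ₁ := by
    funext e; rw [pt_ff, ← hKθ1]
  have hp2 : (fun e : V × V => K' e.1 e.2) = pt (ff G₂) θ₂ := by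
    funext e; rw [pt_ff, ← hKθ2]
  have hx' : eval (fun e : V × V => K' e.1 e.2) (c₁ * c₂) ≠ 0 := hx
  rw [map_mul] at hx'
  have hg1 : eval θ₁ (aeval (ff G₁) c₁) ≠ 0 := by
    rw [← eval_pt, ← hp1]; exact left_ne_zero_of_mul hx'
  have hg2 : eval θ₂ (aeval (ff G₂) c₂) ≠ 0 := by
    rw [← eval_pt, ← hp2]; exact right_ne_zero_of_mul hx'
  obtain ⟨a1, b1, n1⟩ := hc₁' θ₁ hg1
  obtain ⟨a2, b2, n2⟩ := hc₂' θ₂ hg2
  have hTang : ∀ H, Tang (ff G₁) (pt (ff G₁) θ₁) H ↔ Tang (ff G₂) (pt (ff G₂) θ₂) H := by
    intro H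
    rw [← hp1, ← hp2]
    unfold Tang
    constructor
    · intro h F hF
      exact h F ((hker F).mpr hF)
    · intro h F hF
      exact h F ((hker F).mp hF)
  have hL : Lr G₁ θ₁ = Lr G₂ θ₂ := by
    refine final_linalg (Lr G₁ θ₁) (Lr G₂ θ₂) (θ₁ none) (θ₂ none) G₁.Adj G₂.Adj G₁.irrefl
      G₂.irrefl ht1 ht2 hd1 (fun i j => Lr_not G₁ θ₁ i j) (fun i j => Lr_not G₂ θ₂ i j)
      (fun i => Lr_diag G₁ θ₁ i) (fun i => Lr_diag G₂ θ₂ i) (by rw [← hKθ1, ← hKθ2]) ?_
    intro i w
    rw [← tang_iff G₁ θ₁ a1 b1 i w, ← tang_iff G₂ θ₂ a2 b2 i w]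
    exact hTang _
  have hAdj : ∀ i j, G₁.Adj i j ↔ G₂.Adj i j := by
    intro i j
    by_cases hij : i = j
    · subst hij
      exact ⟨fun h => absurd h (G₁.irrefl i), fun h => absurd h (G₂.irrefl i)⟩
    · constructor
      · intro h
        by_contra hcon
        have h3 := Lr_not G₂ θ₂ i j hij hcon
        rw [← hL, Lr_adj G₁ θ₁ i j h] at h3
        exact n1 _ h3
      · intro h
        by_contra hcon
        have h3 := Lr_not G₁ θ₁ i j hij hcon
        rw [hL, Lr_adj G₂ θ₂ i j h] at h3
        exact n2 _ h3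
  ext i j
  exact hAdj i j

lemma coords_inter {V : Type} (S T : Set (Matrix V V ℝ)) :
    coords (S ∩ T) = coords S ∩ coords T := by
  unfold coords
  apply Set.image_inter
  intro K K' h
  ext i j
  exact congrFun h (i, j)

/-- **Q1 is true**: for every finite set `V` and every family of non-complete simple directed
graphs on `V`, the graph is generically identifiable in the homoscedastic models `M_G`. -/
theorem result (V : Type) [Fintype V] [DecidableEq V] (𝒢 : Set (SimpleDigraph V))
    (h𝒢 : ∀ G ∈ 𝒢, ¬ G.Complete) : GenericallyIdentifiable 𝒢 := by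
  intro G₁ h₁ G₂ h₂ hne
  unfold dim
  rw [coords_inter]
  rcases zdim_dichotomy (coords (model G₁)) (coords (model G₂)) (vanishing_prime G₁)
    (vanishing_prime G₂) with h | ⟨e₁, e₂⟩
  · exact h
  · exact absurd (eq_of_good G₁ G₂ (h𝒢 G₁ h₁) (h𝒢 G₂ h₂) e₁ e₂) hne

end Pool.Agent.Results.MP_0e1d24_pr.GenericIdentifiability
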